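import Pool.Agent.Helper66.ES.UI
import Pool.Agent.Helper69.ES.Defs
import Pool.Agent.Helper22.SI.U4S

/-!
# ES: uniform integrability over `[x, 2x]` at scale `U = x^(1/2)`
-/

open MeasureTheory Set Filter Topology
open Pool.Agent.Helper57.Zeta Pool.Agent.Helper57.PC Pool.Agent.Helper57.LH Pool.Agent.Helper78.SG
open Pool.Agent.Helper4.SH Pool.Agent.Helper69.PP Pool.Agent.Helper22.SI
open Pool.Agent.Helper69.SM (wt wt_cont)
open Pool.Agent.Helper69 Pool.Agent.Helper69.ES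

namespace Pool.Agent.Helper66.ES

/-- the weighted integral over a set is at most the integral over its part in `[x, x + V]` -/
lemma wt_int_le {g : TF} (hg : g.th = 1 / 4) (hg1 : ∀ y, g.h y ≤ 1) {x V : ℝ} (hV : 0 < V)
    {G : ℝ → ℝ} (hG : Continuous G) (hG0 : ∀ t, 0 ≤ G t) {B : Set ℝ} (hB : MeasurableSet B) :
    ∫ t in B, wt g.h x V t * |G t| ≤ ∫ t in B ∩ Icc x (x + V), G t := by
  have e2 : ∫ t in Icc x (x + V), wt g.h x V t * |G t| ∂(volume.restrict B) =
      ∫ t, wt g.h x V t * |G t| ∂(volume.restrict B) := by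
    refine setIntegral_eq_integral_of_forall_compl_eq_zero fun t ht => ?_
    rw [wt_zero g x hV, zero_mul]
    intro h
    apply ht
    rw [hg] at h
    rw [mem_Icc] at h ⊢
    constructor <;> nlinarith [h.1, h.2]
  have e : ∫ t in B, wt g.h x V t * |G t| = ∫ t in B ∩ Icc x (x + V), wt g.h x V t * |G t| := by
    rw [inter_comm, ← Measure.restrict_restrict measurableSet_Icc, e2]
  rw [e]
  have i1 : IntegrableOn G (B ∩ Icc x (x + V)) := hG.integrableOn_Icc.mono_set inter_subset_right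
  refine setIntegral_mono_on ?_ i1 (hB.inter measurableSet_Icc) fun t _ => ?_
  · exact (wtI g x hV hG.abs).integrableOn
  · rw [abs_of_nonneg (hG0 t)]
    have := hG0 t
    have h2 : wt g.h x V t ≤ 1 := hg1 _
    nlinarith

theorem ui_FKW (P : PQ.Par) (g : TF) (hg : GoodG g) {k : ℕ} {f : TF} (hf : PQ.KF P k f) :
    UIW g (fun x t => |PQ.FK P k (x ^ ((1 : ℝ) / 2)) t| * (1 + |pss f.h 2 (x ^ ((1 : ℝ) / 2)) t|)) := by
  obtain ⟨hg0, hg1, hg2, hg3⟩ := hg
  have hb : UIB f 2 (PQ.FK P k) := ui_big hg1 hg3 (fun U => PQ.FK_cont P k U) (fun U => pss_cont f.h 2 U)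
    (Pool.Agent.Helper69.PQ.SI.ui_FKS P g hg0 hg1 hg2 hf)
  have hlim : Tendsto (fun x : ℝ => x ^ ((1 : ℝ) / 2)) atTop atTop := tendsto_rpow_atTop (by norm_num)
  have hGc : ∀ U, Continuous fun t => |PQ.FK P k U t| * (1 + |pss f.h 2 U t|) := fun U =>
    (PQ.FK_cont P k U).abs.mul (continuous_const.add (pss_cont f.h 2 U).abs)
  have hG0 : ∀ U t, 0 ≤ |PQ.FK P k U t| * (1 + |pss f.h 2 U t|) := fun U t => by positivity
  have hle : ∀ x : ℝ, 1 ≤ x → x ^ ((1 : ℝ) / 2) ≤ x := fun x hx => by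
    calc x ^ ((1 : ℝ) / 2) ≤ x ^ (1 : ℝ) := Real.rpow_le_rpow_of_exponent_le hx (by norm_num)
      _ = x := Real.rpow_one x
  obtain ⟨⟨C, hC, h1⟩, h2⟩ := hb
  constructor
  · refine ⟨C, hC, ?_⟩
    filter_upwards [hlim.eventually h1, eventually_ge_atTop 1] with x hx hx1
    have h3 := wt_int_le hg0 hg2 (x := x) (V := x) (by linarith) (hGc (x ^ ((1 : ℝ) / 2))) (hG0 _) MeasurableSet.univ
    rw [univ_inter, setIntegral_univ] at h3
    exact h3.trans (hx x (hle x hx1) x)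
  · intro ε hε
    obtain ⟨η, hη, h3⟩ := h2 ε hε
    refine ⟨η, hη, ?_⟩
    filter_upwards [hlim.eventually h3, eventually_ge_atTop 1] with x hx hx1 B hB hBv
    exact (wt_int_le hg0 hg2 (x := x) (V := x) (by linarith) (hGc (x ^ ((1 : ℝ) / 2))) (hG0 _) hB).trans
      (hx x (hle x hx1) x B hB hBv)

end Pool.Agent.Helper66.ES
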