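import Pool.Agent.Helper22.SI.Defs

/-!
# ES: uniform integrability in long windows, from uniform integrability in short windows
-/

set_option autoImplicit false
open MeasureTheory Set Filter Topology
open Pool.Agent.Helper57.Zeta Pool.Agent.Helper57.PC Pool.Agent.Helper57.LH Pool.Agent.Helper78.SG
open Pool.Agent.Helper4.SH Pool.Agent.Helper69.SM
open Pool.Agent.Helper22.SI

namespace Pool.Agent.Helper66.ES

/-- the cells -/
def cell (x w : ℝ) (i : ℕ) : Set ℝ := Ico (x + i * w) (x + (i + 1) * w)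

lemma cell_disj (x : ℝ) {w : ℝ} (hw : 0 < w) (s : Set ℕ) : s.PairwiseDisjoint (cell x w) := by
  intro i _ j _ hij
  refine Set.disjoint_left.2 fun t ht1 ht2 => ?_
  unfold cell at ht1 ht2
  rw [mem_Ico] at ht1 ht2
  rcases lt_or_gt_of_ne hij with h | h
  · have h1 : ((i : ℝ) + 1) ≤ j := by exact_mod_cast h
    have h2 : ((i : ℝ) + 1) * w ≤ j * w := mul_le_mul_of_nonneg_right h1 hw.le
    linarith [ht1.2, ht2.1]
  · have h1 : ((j : ℝ) + 1) ≤ i := by exact_mod_cast h
    have h2 : ((j : ℝ) + 1) * w ≤ i * w := mul_le_mul_of_nonneg_right h1 hw.le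
    linarith [ht2.2, ht1.1]

/-- the number of the cells -/
lemma exists_cells {x w V : ℝ} (hw : 0 < w) (hV : w ≤ V) :
    ∃ n : ℕ, (n : ℝ) * w ≤ 2 * V ∧ Icc x (x + V) ⊆ ⋃ i ∈ Finset.range n, cell x w i := by
  refine ⟨⌊V / w⌋₊ + 1, ?_, ?_⟩
  · have hV0 : 0 ≤ V := hw.le.trans hV
    have h1 : (⌊V / w⌋₊ : ℝ) ≤ V / w := Nat.floor_le (by positivity)
    rw [le_div_iff₀ hw] at h1
    push_cast
    linarith
  · intro t ht
    have h0 : 0 ≤ (t - x) / w := div_nonneg (by linarith [ht.1]) hw.le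
    have h1 := Nat.floor_le h0
    have h2 := Nat.lt_floor_add_one ((t - x) / w)
    rw [le_div_iff₀ hw] at h1
    rw [div_lt_iff₀ hw] at h2
    refine mem_iUnion₂.2 ⟨⌊(t - x) / w⌋₊, ?_, ?_⟩
    · rw [Finset.mem_range]
      refine Nat.lt_succ_of_le (Nat.floor_le_floor ?_)
      exact div_le_div_of_nonneg_right (by linarith [ht.2]) hw.le
    · unfold cell
      rw [mem_Ico]
      constructor <;> linarith

/-- the integral over a set is at most the sum over the cells -/
lemma int_le_cells {x w V : ℝ} (hw : 0 < w) {n : ℕ} (hn : Icc x (x + V) ⊆ ⋃ i ∈ Finset.range n, cell x w i)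
    {G : ℝ → ℝ} (hG : Continuous G) (hG0 : ∀ t, 0 ≤ G t) {B : Set ℝ} (hB : MeasurableSet B) :
    ∫ t in B ∩ Icc x (x + V), G t ≤ ∑ i ∈ Finset.range n, ∫ t in B ∩ cell x w i, G t := by
  have hint : ∀ a b : ℝ, IntegrableOn G (Ico a b) := fun a b =>
    (hG.integrableOn_Icc (a := a) (b := b)).mono_set Ico_subset_Icc_self
  have hi : ∀ i ∈ Finset.range n, IntegrableOn G (B ∩ cell x w i) := fun i _ =>
    (hint _ _).mono_set inter_subset_right
  have hm : ∀ i ∈ Finset.range n, MeasurableSet (B ∩ cell x w i) := fun i _ => hB.inter measurableSet_Ico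
  have hd : Set.Pairwise (↑(Finset.range n)) (Function.onFun Disjoint fun i => B ∩ cell x w i) :=
    fun i hi j hj hij => (cell_disj x hw _ hi hj hij).mono inter_subset_right inter_subset_right
  have h1 := integral_biUnion_finset (μ := volume) (f := G) (Finset.range n) hm hd hi
  rw [← h1]
  refine setIntegral_mono_set ?_ (Eventually.of_forall fun t => hG0 t) ?_
  · exact (integrableOn_finset_iUnion).2 hi
  · refine (show B ∩ Icc x (x + V) ⊆ _ from ?_).eventuallyLE
    intro t ht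
    obtain ⟨i, hi', h2⟩ := mem_iUnion₂.1 (hn ht.2)
    exact mem_iUnion₂.2 ⟨i, hi', ht.1, h2⟩

lemma meas_le_cells {x w : ℝ} (hw : 0 < w) {n : ℕ} {B : Set ℝ} (hB : MeasurableSet B) (hB1 : volume B ≠ ⊤) :
    ∑ i ∈ Finset.range n, volume.real (B ∩ cell x w i) ≤ volume.real B := by
  have hd : Set.Pairwise (↑(Finset.range n)) (Function.onFun Disjoint fun i => B ∩ cell x w i) :=
    fun i hi j hj hij => (cell_disj x hw _ hi hj hij).mono inter_subset_right inter_subset_right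
  rw [← measureReal_biUnion_finset hd (fun i _ => hB.inter measurableSet_Ico)
    (fun i _ => measure_ne_top_of_subset inter_subset_left hB1)]
  exact measureReal_mono (iUnion₂_subset fun i _ => inter_subset_left) hB1

/-- in a cell the weight is `1` -/
lemma wt_one {g : TF} (hg1 : ∀ y, |y| ≤ 1 / 8 → g.h y = 1) {x U : ℝ} (hU : 0 < U) {i : ℕ} {t : ℝ}
    (ht : t ∈ cell x (U / 4) i) : wt g.h (x + i * (U / 4) - 3 * U / 8) U t = 1 := by
  unfold cell at ht
  rw [mem_Ico] at ht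
  unfold wt
  apply hg1
  have e : (t - (x + i * (U / 4) - 3 * U / 8)) / U - 1 / 2 = (t - (x + i * (U / 4)) - U / 8) / U := by
    field_simp
    ring
  rw [e, abs_div, abs_of_pos hU, div_le_iff₀ hU, abs_le]
  constructor <;> linarith [ht.1, ht.2]

/-- one cell: from the bounds in the window of length `U` -/
lemma cell_le {g : TF} (hg0 : ∀ y, 0 ≤ g.h y) (hg1 : ∀ y, |y| ≤ 1 / 8 → g.h y = 1) {x U C ε η : ℝ} (hU : 0 < U)
    (hC : 0 ≤ C) (hε : 0 ≤ ε) (hη : 0 < η) {G : ℝ → ℝ} (hG : Continuous G) (hG0 : ∀ t, 0 ≤ G t)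
    (h1 : ∀ x : ℝ, ∫ t, wt g.h x U t * G t ≤ C * U)
    (h2 : ∀ x : ℝ, ∀ B : Set ℝ, MeasurableSet B → volume B ≤ ENNReal.ofReal (η * U) →
      ∫ t in B, wt g.h x U t * G t ≤ ε * U) {B : Set ℝ} (hB : MeasurableSet B) (hB1 : volume B ≠ ⊤) (i : ℕ) :
    ∫ t in B ∩ cell x (U / 4) i, G t ≤ ε * U + C / η * volume.real (B ∩ cell x (U / 4) i) := by
  set y : ℝ := x + i * (U / 4) - 3 * U / 8 with hy
  have hm : MeasurableSet (B ∩ cell x (U / 4) i) := hB.inter measurableSet_Ico
  have e : ∫ t in B ∩ cell x (U / 4) i, G t = ∫ t in B ∩ cell x (U / 4) i, wt g.h y U t * G t := by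
    refine setIntegral_congr_fun hm fun t ht => ?_
    show G t = wt g.h y U t * G t
    rw [hy, wt_one hg1 hU ht.2, one_mul]
  have hv : 0 ≤ volume.real (B ∩ cell x (U / 4) i) := measureReal_nonneg
  have hfin : volume (B ∩ cell x (U / 4) i) ≠ ⊤ := measure_ne_top_of_subset inter_subset_left hB1
  rw [e]
  by_cases hs : volume.real (B ∩ cell x (U / 4) i) ≤ η * U
  · have h3 : volume (B ∩ cell x (U / 4) i) ≤ ENNReal.ofReal (η * U) := by
      rw [← ENNReal.ofReal_toReal hfin]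
      exact ENNReal.ofReal_le_ofReal hs
    have h4 := h2 y _ hm h3
    have : 0 ≤ C / η * volume.real (B ∩ cell x (U / 4) i) := by positivity
    linarith
  · push Not at hs
    have h3 : ∫ t in B ∩ cell x (U / 4) i, wt g.h y U t * G t ≤ C * U := by
      refine le_trans ?_ (h1 y)
      exact setIntegral_le_integral (wtI g y hU hG) (Eventually.of_forall fun t => mul_nonneg (hg0 _) (hG0 t))
    have h4 : C * U ≤ C / η * volume.real (B ∩ cell x (U / 4) i) := by
      rw [div_mul_eq_mul_div, le_div_iff₀ hη]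
      nlinarith
    nlinarith

/-- uniform integrability of `F (1 + |pss|)` in windows of every length `V ≥ U` -/
def UIB (f : TF) (s : ℝ) (F : ℝ → ℝ → ℝ) : Prop :=
  (∃ C : ℝ, 0 < C ∧ ∀ᶠ U : ℝ in atTop, ∀ V : ℝ, U ≤ V → ∀ x : ℝ,
    ∫ t in Icc x (x + V), |F U t| * (1 + |pss f.h s U t|) ≤ C * V) ∧
  ∀ ε : ℝ, 0 < ε → ∃ η : ℝ, 0 < η ∧ ∀ᶠ U : ℝ in atTop, ∀ V : ℝ, U ≤ V → ∀ x : ℝ, ∀ B : Set ℝ, MeasurableSet B →
    volume B ≤ ENNReal.ofReal (η * V) → ∫ t in B ∩ Icc x (x + V), |F U t| * (1 + |pss f.h s U t|) ≤ ε * V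

theorem ui_big {g f : TF} (hg0 : ∀ y, 0 ≤ g.h y) (hg1 : ∀ y, |y| ≤ 1 / 8 → g.h y = 1) {s : ℝ} {F : ℝ → ℝ → ℝ}
    (hF : ∀ U, Continuous (F U)) (hf : ∀ U, Continuous fun t => pss f.h s U t) (h : UIS g f s F) : UIB f s F := by
  obtain ⟨⟨C, hC, h1⟩, h2⟩ := h
  have hGc : ∀ U, Continuous fun t => |F U t| * (1 + |pss f.h s U t|) := fun U =>
    (hF U).abs.mul (continuous_const.add (hf U).abs)
  have hG0 : ∀ U t, 0 ≤ |F U t| * (1 + |pss f.h s U t|) := fun U t => by positivity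
  have key : ∀ ε : ℝ, 0 < ε → ∃ η : ℝ, 0 < η ∧ ∀ᶠ U : ℝ in atTop, ∀ V : ℝ, U ≤ V → ∀ x : ℝ, ∀ B : Set ℝ,
      MeasurableSet B → volume B ≠ ⊤ → ∫ t in B ∩ Icc x (x + V), |F U t| * (1 + |pss f.h s U t|) ≤
        8 * ε * V + C / η * volume.real B := by
    intro ε hε
    obtain ⟨η, hη, h3⟩ := h2 ε hε
    refine ⟨η, hη, ?_⟩
    filter_upwards [h1, h3, eventually_gt_atTop 0] with U hU1 hU2 hU V hV x B hB hB1
    obtain ⟨n, hn, hcov⟩ := exists_cells (x := x) (V := V) (show 0 < U / 4 by positivity) (by linarith)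
    refine (int_le_cells (by positivity) hcov (hGc U) (hG0 U) hB).trans ?_
    refine (Finset.sum_le_sum fun i _ => cell_le hg0 hg1 hU hC.le hε.le hη (hGc U) (hG0 U) hU1 hU2 hB hB1 i).trans ?_
    rw [Finset.sum_add_distrib, Finset.sum_const, Finset.card_range, nsmul_eq_mul, ← Finset.mul_sum]
    have h4 := meas_le_cells (x := x) (w := U / 4) (n := n) (by positivity) hB hB1
    have h5 : C / η * ∑ i ∈ Finset.range n, volume.real (B ∩ cell x (U / 4) i) ≤ C / η * volume.real B :=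
      mul_le_mul_of_nonneg_left h4 (by positivity)
    have h6 : (n : ℝ) * (ε * U) ≤ 8 * ε * V := by nlinarith
    linarith
  constructor
  · obtain ⟨η, hη, h3⟩ := key 1 one_pos
    refine ⟨8 + C / η, by positivity, ?_⟩
    filter_upwards [h3, eventually_gt_atTop 0] with U hU hU0 V hV x
    have h4 := hU V hV x (Icc x (x + V)) measurableSet_Icc (by simp)
    rw [inter_self, Real.volume_real_Icc_of_le (by linarith)] at h4
    calc _ ≤ _ := h4
      _ = _ := by ring
  · intro ε hε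
    obtain ⟨η, hη, h3⟩ := key (ε / 16) (by positivity)
    refine ⟨ε * η / (2 * C), by positivity, ?_⟩
    filter_upwards [h3, eventually_gt_atTop 0] with U hU hU0 V hV x B hB hBv
    have hfin : volume B ≠ ⊤ := ne_top_of_le_ne_top ENNReal.ofReal_ne_top hBv
    have h4 := hU V hV x B hB hfin
    have h5 : volume.real B ≤ ε * η / (2 * C) * V := by
      have hV0 : 0 ≤ V := hU0.le.trans hV
      exact ENNReal.toReal_le_of_le_ofReal (by positivity) hBv
    have h6 : C / η * volume.real B ≤ C / η * (ε * η / (2 * C) * V) := mul_le_mul_of_nonneg_left h5 (by positivity)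
    have h7 : C / η * (ε * η / (2 * C) * V) = ε / 2 * V := by
      field_simp
    linarith

end Pool.Agent.Helper66.ES
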